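import Pool.Agent.U483.CX.Rel

/-!
# Schemes of small complexity

The complexity of a system of equations with `t_1, …, t_c` terms is the sum of the numbers
`max (t_i - 2, 0)`. A property of schemes which is closed under closed-open decompositions, which
passes from `X` to `X × 𝔾_m`, and which is true for the affine schemes of dimension at most
`dim R + D`, is true for all closed subschemes of affine spaces of complexity at most `D`.
-/

set_option autoImplicit false

namespace Pool.Agent.U483.CX

open CategoryTheory AlgebraicGeometry MvPolynomial Pool.Agent.Y116.UV Pool.Agent.U738.BN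
open Pool.Agent.Z125.UN

variable {R : Type} [CommRing R] {σ : Type}

/-- A sum of at most `t` terms. -/
def IsSum (t : ℕ) (g : MvPolynomial σ R) : Prop :=
  ∃ l : List (MvPolynomial σ R), l.length ≤ t ∧ (∀ f ∈ l, IsTerm f) ∧ g = l.sum

lemma isSum_X (s : σ) : IsSum 1 (X s : MvPolynomial σ R) :=
  ⟨[X s], le_rfl, fun f hf => by
    rw [List.mem_singleton] at hf
    rw [hf]
    exact isTerm_X s, by simp⟩

section

variable {A : Type} [CommRing A] [Algebra R A] (x : σ → A) (hx : ∀ s, x s = 0 ∨ IsUnit (x s))

include hx

lemma exists_list (l : List (MvPolynomial σ R)) (hl : ∀ f ∈ l, IsTerm f) :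
    ∃ M : List (grp x R), M.length ≤ l.length ∧
      (M.map fun h : grp x R => ((h : Aˣ) : A)).sum = aeval x l.sum ∧
      (M.map (cls (th x : Rˣ →* grp x R))).sum = aeval (vals (R := R) x) l.sum := by
  induction l with
  | nil => exact ⟨[], le_rfl, by simp, by simp⟩
  | cons f l ih =>
    obtain ⟨M, h1, h2, h3⟩ := ih fun g hg => hl g (List.mem_cons_of_mem _ hg)
    rcases (mem_cor x).mp (term_cor x hx (hl f List.mem_cons_self)) with h4 | ⟨h, h4⟩
    · refine ⟨M, h1.trans (by simp), ?_, ?_⟩
      · rw [h2, List.sum_cons, map_add, show aeval x f = 0 from congrArg Prod.fst h4, zero_add]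
      · rw [h3, List.sum_cons, map_add,
          show aeval (vals (R := R) x) f = 0 from congrArg Prod.snd h4, zero_add]
    · refine ⟨h :: M, by simpa using h1, ?_, ?_⟩
      · rw [List.map_cons, List.sum_cons, List.sum_cons, map_add, h2,
          show aeval x f = ((h : Aˣ) : A) from congrArg Prod.fst h4]
      · rw [List.map_cons, List.sum_cons, List.sum_cons, map_add, h3,
          show aeval (vals (R := R) x) f = cls (th x) h from congrArg Prod.snd h4]

end

section

variable {κ : Type} (G : κ → MvPolynomial σ R) (w : MvPolynomial σ R)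
  (M : κ → List (grp (pv G w) R))
  (hM : ∀ k, ((M k).map fun h : grp (pv G w) R => ((h : (Pc G w)ˣ) : Pc G w)).sum = aeval (pv G w) (G k))
  (hM' : ∀ k, ((M k).map (cls (th (pv G w) : Rˣ →* grp (pv G w) R))).sum =
    aeval (vals (R := R) (pv G w)) (G k))
  (hw : IsTerm w) (hx : ∀ s, pv G w s = 0 ∨ IsUnit (pv G w s)) [Nontrivial (Pc G w)]

/-- from the quotient of the twisted group algebra -/
noncomputable def alR : Rl (th (pv G w) : Rˣ →* grp (pv G w) R) M →ₐ[R] Pc G w :=
  rlLift (th (pv G w)) M ((Units.coeHom (Pc G w)).comp (grp (pv G w) R).subtype) (fun _ => rfl)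
    (fun k => by
      have h := hM k
      rw [pc_aeval, pc_rel] at h
      exact h)

omit [Nontrivial (Pc G w)] in
lemma alR_rc (h : grp (pv G w) R) : alR G w M hM (rc (th (pv G w)) M h) =
    ((h : (Pc G w)ˣ) : Pc G w) := rlLift_rc _ _ _ _ _ _

/-- to the quotient of the twisted group algebra -/
noncomputable def beR : Pc G w →ₐ[R] Rl (th (pv G w) : Rˣ →* grp (pv G w) R) M :=
  pcLift G w (fun s => rq (th (pv G w)) M (vals (R := R) (pv G w) s))
    (fun k => by
      have h : aeval (fun s => rq (th (pv G w)) M (vals (R := R) (pv G w) s)) =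
          (rq (th (pv G w) : Rˣ →* grp (pv G w) R) M).comp (aeval (vals (R := R) (pv G w))) := by
        apply MvPolynomial.algHom_ext
        intro s
        rw [aeval_X, AlgHom.comp_apply, aeval_X]
      rw [h, AlgHom.comp_apply, ← hM' k]
      exact rq_zero _ _ (Ideal.subset_span ⟨k, rfl⟩))
    (by
      have h : aeval (fun s => rq (th (pv G w)) M (vals (R := R) (pv G w) s)) =
          (rq (th (pv G w) : Rˣ →* grp (pv G w) R) M).comp (aeval (vals (R := R) (pv G w))) := by
        apply MvPolynomial.algHom_ext
        intro s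
        rw [aeval_X, AlgHom.comp_apply, aeval_X]
      rw [h, AlgHom.comp_apply]
      exact (cor_unit (pv G w) (term_cor (pv G w) hx hw)
        (by rw [pc_aeval]; exact pc_unit G w)).map _)

lemma beR_pv (s : σ) : beR G w M hM' hw hx (pv G w s) =
    rq (th (pv G w)) M (vals (R := R) (pv G w) s) := pcLift_pv _ _ _ _ _ _

lemma beR_us (s : σ) : beR G w M hM' hw hx (us (pv G w) s : Pc G w) =
    rc (th (pv G w) : Rˣ →* grp (pv G w) R) M ⟨us (pv G w) s, us_mem (pv G w) s⟩ := by
  by_cases h : IsUnit (pv G w s)
  · rw [us_val _ h, beR_pv, vals, if_pos h]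
    rfl
  · have h1 : us (pv G w) s = 1 := by rw [us, dif_neg h]
    have h2 : (⟨us (pv G w) s, us_mem (pv G w) s⟩ : grp (pv G w) R) = 1 := Subtype.ext h1
    rw [h2, h1, map_one, Units.val_one, map_one]

lemma beR_grp (h : grp (pv G w) R) : beR G w M hM' hw hx ((h : (Pc G w)ˣ) : Pc G w) =
    rc (th (pv G w) : Rˣ →* grp (pv G w) R) M h := by
  let m : grp (pv G w) R →* Rl (th (pv G w) : Rˣ →* grp (pv G w) R) M :=
    ((beR G w M hM' hw hx : Pc G w →* _).comp (Units.coeHom _)).comp (grp (pv G w) R).subtype
  have key := grp_induction (R := R) (pv G w) (N := MonoidHom.eqLocus m.toHomUnits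
    (rc (th (pv G w) : Rˣ →* grp (pv G w) R) M).toHomUnits) (fun c => by
      change m.toHomUnits _ = (rc (th (pv G w)) M).toHomUnits _
      apply Units.ext
      change beR G w M hM' hw hx (algebraMap R (Pc G w) c) =
        rc (th (pv G w)) M (th (pv G w) c)
      rw [rc_theta, AlgHom.commutes]) (fun s => by
      change m.toHomUnits _ = (rc (th (pv G w)) M).toHomUnits _
      apply Units.ext
      exact beR_us G w M hM' hw hx s) h
  exact congrArg Units.val key

/-- The ring of functions of a piece on which every coordinate is zero or invertible. -/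
noncomputable def pieceR : Rl (th (pv G w) : Rˣ →* grp (pv G w) R) M ≃ₐ[R] Pc G w :=
  AlgEquiv.ofAlgHom (alR G w M hM) (beR G w M hM' hw hx)
    (by
      apply pc_ext
      intro s
      rw [AlgHom.comp_apply, beR_pv, vals]
      split_ifs with h
      · have h1 := alR_rc G w M hM ⟨us (pv G w) s, us_mem (pv G w) s⟩
        rw [rc_apply] at h1
        rw [h1]
        exact us_val _ h
      · rw [map_zero, map_zero]
        rcases hx s with h0 | h0
        · exact h0.symm
        · exact absurd h0 h)
    (by
      refine rl_ext (B := Rl (th (pv G w) : Rˣ →* grp (pv G w) R) M) ?_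
      intro h
      rw [AlgHom.comp_apply, alR_rc]
      exact beR_grp G w M hM' hw hx h)

end

section

variable [IsNoetherianRing R] {sep : Prop} {P : Sch R → Prop} (hP : Pos sep P) [Finite σ]
  (d : WithBot ℕ∞) (hd : ∀ (A : Type) [CommRing A] [Algebra R A] [Algebra.FiniteType R A],
      ringKrullDim A ≤ d → P (aff R A))

include hP hd

lemma piece_R {κ : Type} [Fintype κ] (c : κ → ℕ) (G : κ → MvPolynomial σ R)
    (w : MvPolynomial σ R) (hG : ∀ k, IsSum (c k) (G k)) (hw : IsTerm w)
    (hx : ∀ s, pv G w s = 0 ∨ IsUnit (pv G w s))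
    (hdim : ringKrullDim R + (∑ k, (c k - 2) : ℕ) ≤ d) : P (aff R (Pc G w)) := by
  rcases subsingleton_or_nontrivial (Pc G w) with h | h
  · have : Module.Finite R (Pc G w) := ⟨⟨∅, by
      rw [eq_top_iff]
      rintro x -
      rw [Subsingleton.elim x 0]
      exact Submodule.zero_mem _⟩⟩
    exact hP.finite _
  · choose l hl1 hl2 hl3 using hG
    choose M hM1 hM2 hM3 using fun k => exists_list (R := R) (pv G w) hx (l k) (hl2 k)
    have h1 : (∑ k, ((M k).length - 2) : ℕ) ≤ ∑ k, (c k - 2) :=
      Finset.sum_le_sum fun k _ => by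
        have := (hM1 k).trans (hl1 k)
        omega
    obtain ⟨h2, h3⟩ := rel_P (th (pv G w) : Rˣ →* grp (pv G w) R) M hP d hd
      (le_trans (by gcongr) hdim) (grp_fg (pv G w))
    exact pos_alg hP (pieceR G w M (fun k => by rw [hM2, ← hl3]) (fun k => by rw [hM3, ← hl3])
      hw hx) h3

lemma strat_R (F : Finset σ) : ∀ {κ : Type} [Fintype κ] (c : κ → ℕ) (G : κ → MvPolynomial σ R)
    (w : MvPolynomial σ R), (∀ k, IsSum (c k) (G k)) → IsTerm w →
    (∀ s ∉ F, pv G w s = 0 ∨ IsUnit (pv G w s)) →
    ringKrullDim R + (∑ k, (c k - 2) : ℕ) ≤ d → P (aff R (Pc G w)) := by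
  classical
  induction F using Finset.induction_on with
  | empty =>
    intro κ _ c G w hG hw hx hdim
    exact piece_R hP d hd c G w hG hw (fun s => hx s (Finset.notMem_empty s)) hdim
  | insert s F _ ih =>
    intro κ _ c G w hG hw hx hdim
    have hc : P (aff R (Pc (adj G (X s)) w)) := by
      refine ih (κ := Option κ) (fun k => k.elim 1 c) (adj G (X s)) w ?_ hw ?_ ?_
      · rintro (_ | k)
        · exact isSum_X s
        · exact hG k
      · intro s' hs'
        by_cases h : s' = s
        · rw [h]
          exact Or.inl (pc_rel (adj G (X s)) w none)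
        · rcases hx s' (by
            rw [Finset.mem_insert, not_or]
            exact ⟨h, hs'⟩) with h0 | h0
          · exact Or.inl (by rw [← cloF_pv G w (X s), h0, map_zero])
          · exact Or.inr (by rw [← cloF_pv G w (X s)]; exact h0.map _)
      · rw [Fintype.sum_option]
        simpa using hdim
    have ho : P (aff R (Pc G (w * X s))) := by
      refine ih c G (w * X s) hG (hw.mul (isTerm_X s)) ?_ hdim
      intro s' hs'
      by_cases h : s' = s
      · rw [h]
        exact Or.inr (pc_unit_right G w (X s))
      · rcases hx s' (by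
          rw [Finset.mem_insert, not_or]
          exact ⟨h, hs'⟩) with h0 | h0
        · exact Or.inl (by rw [← opnF_pv G w (X s), h0, map_zero])
        · exact Or.inr (by rw [← opnF_pv G w (X s)]; exact h0.map _)
    have h1 : Algebra.FiniteType R (Pc G w ⧸ Ideal.span {pc G w (X s)}) := inferInstance
    exact hP.total _ _ (ft_aff sep) (triple_away (pc G w (X s)))
      (pos_alg hP (cloE G w (X s)).symm hc) (pos_alg hP (opnE G w (X s)).symm ho)

/-- **Schemes of small complexity**: a property which is true for the affine schemes of dimension at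
most `d` is true for the closed subschemes of affine spaces given by finitely many equations, the `k`-th
one a sum of at most `c k` terms, with `dim R + ∑ max (c k - 2, 0) ≤ d`. -/
theorem small_P {κ : Type} [Fintype κ] (c : κ → ℕ) (G : κ → MvPolynomial σ R)
    (hG : ∀ k, IsSum (c k) (G k)) (hdim : ringKrullDim R + (∑ k, (c k - 2) : ℕ) ≤ d) :
    P (aff R (MvPolynomial σ R ⧸ Ideal.span (Set.range G))) := by
  have := Fintype.ofFinite σ
  exact pos_alg hP (oneE G).symm (strat_R hP d hd Finset.univ c G 1 hG isTerm_one
    (fun s hs => absurd (Finset.mem_univ s) hs) hdim)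

end

section

variable {k : Type} [Field k]

/-- Over a field the number of terms is the cardinality of the support. -/
lemma isSum_card (g : MvPolynomial σ k) : IsSum g.support.card g := by
  classical
  refine ⟨g.support.toList.map fun m => monomial m (coeff m g), ?_, ?_, ?_⟩
  · rw [List.length_map, Finset.length_toList]
  · intro f hf
    obtain ⟨m, hm, rfl⟩ := List.mem_map.mp hf
    rw [Finset.mem_toList, mem_support_iff] at hm
    exact ⟨m, Units.mk0 _ hm, rfl⟩
  · rw [Finset.sum_map_toList]
    exact g.as_sum

variable {sep : Prop} {P : Sch k → Prop} (hP : Pos sep P) [Finite σ]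
  (D : ℕ) (hd : ∀ (A : Type) [CommRing A] [Algebra k A] [Algebra.FiniteType k A],
      ringKrullDim A ≤ D → P (aff k A))

include hP hd

/-- **Schemes of small complexity** over a field. -/
theorem small_field {κ : Type} [Fintype κ] (G : κ → MvPolynomial σ k)
    (hdim : ∑ i, ((G i).support.card - 2) ≤ D) :
    P (aff k (MvPolynomial σ k ⧸ Ideal.span (Set.range G))) := by
  refine small_P hP (D : WithBot ℕ∞) hd (fun i => (G i).support.card) G
    (fun i => isSum_card (G i)) ?_
  rw [ringKrullDim_eq_zero_of_field, zero_add]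
  exact_mod_cast hdim

/-- **Schemes of small complexity** over a field. -/
theorem small_finset (G : Finset (MvPolynomial σ k))
    (hdim : ∑ g ∈ G, (g.support.card - 2) ≤ D) :
    P (aff k (MvPolynomial σ k ⧸ Ideal.span (G : Set (MvPolynomial σ k)))) := by
  have h := small_field hP D hd (fun g : G => (g : MvPolynomial σ k)) (by
    rw [Finset.univ_eq_attach, Finset.sum_attach G fun g => g.support.card - 2]
    exact hdim)
  rw [Subtype.range_coe_subtype] at h
  exact h

end

end Pool.Agent.U483.CX
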