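import Pool.Agent.U738.BN.Fin

/-!
# Twisted group algebras modulo sums of group elements: dimension

For a homomorphism `θ : Rˣ → H` to a commutative group and for a family `L` of lists of elements of `H`
let `Rl θ L` be the quotient of the twisted group algebra `Tw θ` by the sums of the elements of the
lists. If the ratios of the elements of the same list generate `H`, up to finite index and up to the
image of `θ`, then the dimension of `Rl θ L` is at most `dim R + ∑ (length - 2)`.
-/

set_option autoImplicit false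

namespace Pool.Agent.U483.CX

open Pool.Agent.U738.BN MvPolynomial

variable {R : Type} [CommRing R] {H : Type} [CommGroup H] (θ : Rˣ →* H)

/-- the sum of the classes -/
noncomputable def lsum (l : List H) : Tw θ := (l.map (cls θ)).sum

variable {ι : Type} (L : ι → List H)

/-- the ideal of the relations -/
noncomputable def relI : Ideal (Tw θ) := Ideal.span (Set.range fun i => lsum θ (L i))

/-- the quotient of the twisted group algebra by the sums of the elements of the lists -/
def Rl : Type := Tw θ ⧸ relI θ L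

noncomputable instance : CommRing (Rl θ L) := inferInstanceAs (CommRing (Tw θ ⧸ relI θ L))

noncomputable instance : Algebra R (Rl θ L) := inferInstanceAs (Algebra R (Tw θ ⧸ relI θ L))

/-- the projection -/
noncomputable def rq : Tw θ →ₐ[R] Rl θ L := Ideal.Quotient.mkₐ R (relI θ L)

lemma rq_surj : Function.Surjective (rq θ L) := Ideal.Quotient.mk_surjective

lemma rq_zero {x : Tw θ} (hx : x ∈ relI θ L) : rq θ L x = 0 := Ideal.Quotient.eq_zero_iff_mem.mpr hx

/-- the class of an element of the group -/
noncomputable def rc : H →* Rl θ L := (rq θ L : Tw θ →* Rl θ L).comp (cls θ)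

lemma rc_apply (h : H) : rc θ L h = rq θ L (cls θ h) := rfl

lemma rc_theta (c : Rˣ) : rc θ L (θ c) = algebraMap R (Rl θ L) c := by
  rw [rc_apply, cls_theta, AlgHom.commutes]

lemma rc_sum (i : ι) : ((L i).map (rc θ L)).sum = 0 := by
  have h : rq θ L (lsum θ (L i)) = 0 := rq_zero θ L (Ideal.subset_span ⟨i, rfl⟩)
  rw [lsum, map_list_sum, List.map_map] at h
  exact h

lemma rc_unit (h : H) : IsUnit (rc θ L h) := (Group.isUnit h).map (rc θ L)

lemma rc_span : Submodule.span R (Set.range (rc θ L)) = ⊤ := by
  have h1 := congrArg (Submodule.map (rq θ L).toLinearMap) (tw_span (R := R) (θ := θ))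
  rw [Submodule.map_span, ← Set.range_comp, Submodule.map_top] at h1
  have h2 : LinearMap.range (rq θ L).toLinearMap = ⊤ :=
    LinearMap.range_eq_top.mpr (rq_surj θ L)
  rw [h2] at h1
  exact h1

/-- The group generated by the units of `R` and by the ratios of the elements of the same list. -/
def ratN : Subgroup H :=
  Subgroup.closure (Set.range θ ∪ {x | ∃ i, ∃ h ∈ L i, ∃ h' ∈ L i, x = h / h'})

section

variable (B : Subalgebra R (Rl θ L))

/-- The elements which are in `B` up to multiplication with the class of an element of the group which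
is in `B`. -/
def locB : Subalgebra R (Rl θ L) where
  carrier := {b | ∃ m : H, rc θ L m ∈ B ∧ b * rc θ L m ∈ B}
  mul_mem' := by
    rintro a b ⟨m, h1, h2⟩ ⟨n, h3, h4⟩
    refine ⟨m * n, ?_, ?_⟩
    · rw [map_mul]
      exact B.mul_mem h1 h3
    · rw [map_mul, mul_mul_mul_comm]
      exact B.mul_mem h2 h4
  add_mem' := by
    rintro a b ⟨m, h1, h2⟩ ⟨n, h3, h4⟩
    refine ⟨m * n, ?_, ?_⟩
    · rw [map_mul]
      exact B.mul_mem h1 h3
    · have : (a + b) * rc θ L (m * n) = a * rc θ L m * rc θ L n + b * rc θ L n * rc θ L m := by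
        rw [map_mul]
        ring
      rw [this]
      exact B.add_mem (B.mul_mem h2 h3) (B.mul_mem h4 h1)
  algebraMap_mem' r := ⟨1, by rw [map_one]; exact B.one_mem, by
    rw [map_one, mul_one]
    exact B.algebraMap_mem r⟩

lemma mem_locB {b : Rl θ L} : b ∈ locB θ L B ↔ ∃ m : H, rc θ L m ∈ B ∧ b * rc θ L m ∈ B := Iff.rfl

/-- the elements of the group whose classes are in `locB` -/
def locH : Subgroup H where
  carrier := {n | ∃ m : H, rc θ L m ∈ B ∧ rc θ L (n * m) ∈ B}
  mul_mem' := by
    rintro a b ⟨m, h1, h2⟩ ⟨n, h3, h4⟩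
    refine ⟨m * n, ?_, ?_⟩
    · rw [map_mul]
      exact B.mul_mem h1 h3
    · rw [mul_mul_mul_comm, map_mul]
      exact B.mul_mem h2 h4
  one_mem' := ⟨1, by rw [map_one]; exact B.one_mem, by rw [mul_one, map_one]; exact B.one_mem⟩
  inv_mem' := by
    rintro a ⟨m, h1, h2⟩
    exact ⟨a * m, h2, by rw [inv_mul_cancel_left]; exact h1⟩

/-- From the elements of a list but the first two ones to all elements. -/
lemma ratio_mem {l : List H} (hs : (l.map (rc θ L)).sum = 0)
    (hl : ∀ h ∈ l.drop 2, rc θ L (h / l.headD 1) ∈ B) : ∀ h ∈ l, rc θ L (h / l.headD 1) ∈ B := by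
  match l, hs, hl with
  | [], _, _ => exact fun h hh => absurd hh List.not_mem_nil
  | [a], _, _ =>
    intro h hh
    rw [List.mem_singleton] at hh
    rw [hh, List.headD_cons, div_self', map_one]
    exact B.one_mem
  | a :: b :: t, hs, hl =>
    rw [List.headD_cons] at hl ⊢
    have h1 : rc θ L (a / a) ∈ B := by
      rw [div_self', map_one]
      exact B.one_mem
    have h2 : ∀ h ∈ t, rc θ L (h / a) ∈ B := fun h hh => hl h hh
    have h3 : ∀ s : List H, (s.map (rc θ L)).sum * rc θ L a⁻¹ =
        (s.map fun h => rc θ L (h / a)).sum := by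
      intro s
      induction s with
      | nil => rw [List.map_nil, List.map_nil, List.sum_nil, zero_mul]
      | cons x s ih =>
        rw [List.map_cons, List.map_cons, List.sum_cons, List.sum_cons, add_mul, ih, ← map_mul,
          div_eq_mul_inv]
    have h4 := h3 (a :: b :: t)
    rw [hs, zero_mul, List.map_cons, List.map_cons, List.sum_cons, List.sum_cons] at h4
    have h5 : (t.map fun h => rc θ L (h / a)).sum ∈ B := by
      refine B.list_sum_mem ?_
      intro x hx
      obtain ⟨h, hh, rfl⟩ := List.mem_map.mp hx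
      exact h2 h hh
    have h6 : rc θ L (b / a) ∈ B := by
      have : rc θ L (b / a) = -(rc θ L (a / a) + (t.map fun h => rc θ L (h / a)).sum) := by
        linear_combination -h4
      rw [this]
      exact B.neg_mem (B.add_mem h1 h5)
    intro h hh
    rcases List.mem_cons.mp hh with rfl | hh
    · exact h1
    · rcases List.mem_cons.mp hh with rfl | hh
      · exact h6
      · exact h2 h hh

lemma ratN_le (hB : ∀ i, ∀ h ∈ (L i).drop 2, rc θ L (h / (L i).headD 1) ∈ B) :
    ratN θ L ≤ locH θ L B := by
  refine (Subgroup.closure_le _).mpr ?_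
  rintro _ (⟨c, rfl⟩ | ⟨i, h, hh, h', hh', rfl⟩)
  · refine ⟨1, by rw [map_one]; exact B.one_mem, ?_⟩
    rw [mul_one, rc_theta]
    exact B.algebraMap_mem _
  · refine ⟨h' / (L i).headD 1, ratio_mem θ L B (rc_sum θ L i) (hB i) h' hh', ?_⟩
    rw [div_mul_div_cancel]
    exact ratio_mem θ L B (rc_sum θ L i) (hB i) h hh

lemma integral_locB (hB : ∀ i, ∀ h ∈ (L i).drop 2, rc θ L (h / (L i).headD 1) ∈ B)
    (hN : ∃ F : Finset H, ∀ x : H, ∃ m ∈ ratN θ L, ∃ f ∈ F, x = m * f) :
    Algebra.IsIntegral (locB θ L B) (Rl θ L) := by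
  classical
  obtain ⟨F, hF⟩ := hN
  have h : Module.Finite (locB θ L B) (Rl θ L) := by
    refine ⟨⟨F.image (rc θ L), ?_⟩⟩
    rw [eq_top_iff]
    rintro x -
    have hx : x ∈ Submodule.span R (Set.range (rc θ L)) := by
      rw [rc_span]
      exact Submodule.mem_top
    induction hx using Submodule.span_induction with
    | mem x hx =>
      obtain ⟨y, rfl⟩ := hx
      obtain ⟨m, hm, f, hf, rfl⟩ := hF y
      have h1 : rc θ L m ∈ locB θ L B := by
        obtain ⟨n, h2, h3⟩ := ratN_le θ L B hB hm
        exact ⟨n, h2, by rw [← map_mul]; exact h3⟩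
      have h2 : rc θ L (m * f) = (⟨rc θ L m, h1⟩ : locB θ L B) • rc θ L f := by
        rw [map_mul]
        rfl
      rw [h2]
      exact Submodule.smul_mem _ _ (Submodule.subset_span (by
        rw [Finset.coe_image]
        exact ⟨f, hf, rfl⟩))
    | zero => exact Submodule.zero_mem _
    | add x y _ _ hx hy => exact Submodule.add_mem _ hx hy
    | smul r x _ hx =>
      have h2 : r • x = (algebraMap R (locB θ L B) r) • x := by
        rw [Algebra.smul_def]
        rfl
      rw [h2]
      exact Submodule.smul_mem _ _ hx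
  exact inferInstance

end

/-- The dimension. -/
theorem rel_dim [Fintype ι] [IsNoetherianRing R]
    (hN : ∃ F : Finset H, ∀ x : H, ∃ m ∈ ratN θ L, ∃ f ∈ F, x = m * f) :
    ringKrullDim (Rl θ L) ≤ ringKrullDim R + (∑ i, ((L i).length - 2) : ℕ) := by
  classical
  let τ : Type := Σ i : ι, Fin ((L i).drop 2).length
  let v : τ → Rl θ L := fun a => rc θ L (((L a.1).drop 2).get a.2 / (L a.1).headD 1)
  let φ : MvPolynomial τ R →ₐ[R] Rl θ L := aeval v
  let B : Subalgebra R (Rl θ L) := φ.range
  have hB : ∀ i, ∀ h ∈ (L i).drop 2, rc θ L (h / (L i).headD 1) ∈ B := by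
    intro i h hh
    obtain ⟨a, ha⟩ := List.get_of_mem hh
    refine ⟨X ⟨i, a⟩, ?_⟩
    change aeval v (X ⟨i, a⟩) = _
    rw [aeval_X]
    change rc θ L (((L i).drop 2).get a / (L i).headD 1) = _
    rw [ha]
  have hint := integral_locB θ L B hB hN
  have hmono : StrictMono (PrimeSpectrum.comap (φ : MvPolynomial τ R →+* Rl θ L)) := by
    intro I J hIJ
    have h1 : I.asIdeal < J.asIdeal := hIJ
    obtain ⟨h2, x, hxJ, hxI⟩ := SetLike.lt_iff_le_and_exists.mp h1
    have h3 : I.asIdeal.comap (algebraMap (locB θ L B) (Rl θ L)) <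
        J.asIdeal.comap (algebraMap (locB θ L B) (Rl θ L)) :=
      Ideal.comap_lt_comap_of_integral_mem_sdiff h2 ⟨hxJ, hxI⟩ (Algebra.IsIntegral.isIntegral x)
    obtain ⟨-, ⟨b, m, hm1, hm2⟩, hbJ, hbI⟩ := SetLike.lt_iff_le_and_exists.mp h3
    obtain ⟨y, hy⟩ := hm2
    have h4 : b * rc θ L m ∈ J.asIdeal := Ideal.mul_mem_right _ _ hbJ
    have h5 : b * rc θ L m ∉ I.asIdeal := by
      intro h
      rcases I.isPrime.mem_or_mem h with h6 | h6
      · exact hbI h6
      · exact I.isPrime.ne_top (Ideal.eq_top_of_isUnit_mem _ h6 (rc_unit θ L m))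
    have h6 : I.asIdeal.comap (φ : MvPolynomial τ R →+* Rl θ L) <
        J.asIdeal.comap (φ : MvPolynomial τ R →+* Rl θ L) := by
      refine SetLike.lt_iff_le_and_exists.mpr ⟨Ideal.comap_mono h2, y, ?_, ?_⟩
      · change φ y ∈ J.asIdeal
        rw [show φ y = b * rc θ L m from hy]
        exact h4
      · intro h
        apply h5
        rw [← show φ y = b * rc θ L m from hy]
        exact h
    exact h6
  have hdim : ringKrullDim (Rl θ L) ≤ ringKrullDim (MvPolynomial τ R) :=
    Order.krullDim_le_of_strictMono _ hmono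
  have hcard : Nat.card τ = ∑ i, ((L i).length - 2) := by
    rw [Nat.card_eq_fintype_card, Fintype.card_sigma]
    refine Finset.sum_congr rfl fun i _ => ?_
    rw [Fintype.card_fin, List.length_drop]
  rw [MvPolynomial.ringKrullDim_of_isNoetherianRing, hcard] at hdim
  exact hdim

end Pool.Agent.U483.CX
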