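import Pool.Agent.U483.CX.Dim

/-!
# Twisted group algebras modulo sums of group elements: splitting off tori
-/

set_option autoImplicit false

namespace Pool.Agent.U483.CX

open CategoryTheory AlgebraicGeometry Pool.Agent.Y116.UV Pool.Agent.U738.BN LaurentPolynomial

variable {R : Type} [CommRing R] {H : Type} [CommGroup H] (θ : Rˣ →* H) {ι : Type}
  (L : ι → List H)

section

variable {B : Type} [CommRing B] [Algebra R B]

/-- The universal property. -/
noncomputable def rlLift (ψ : H →* B) (h : ∀ c : Rˣ, ψ (θ c) = algebraMap R B c)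
    (hL : ∀ i, ((L i).map ψ).sum = 0) : Rl θ L →ₐ[R] B :=
  Ideal.Quotient.liftₐ (relI θ L) (twLift θ ψ h) (by
    intro a ha
    have h1 : relI θ L ≤ RingHom.ker (twLift θ ψ h) := by
      rw [relI, Ideal.span_le]
      rintro _ ⟨i, rfl⟩
      change twLift θ ψ h (lsum θ (L i)) = 0
      rw [lsum, map_list_sum, List.map_map, ← hL i]
      congr 1
      refine List.map_congr_left fun x _ => ?_
      exact twLift_cls θ ψ h x
    exact h1 ha)

lemma rlLift_rc (ψ : H →* B) (h : ∀ c : Rˣ, ψ (θ c) = algebraMap R B c)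
    (hL : ∀ i, ((L i).map ψ).sum = 0) (x : H) : rlLift θ L ψ h hL (rc θ L x) = ψ x :=
  twLift_cls θ ψ h x

variable {θ L}

lemma rl_ext {f g : Rl θ L →ₐ[R] B} (h : ∀ x, f (rc θ L x) = g (rc θ L x)) : f = g := by
  have h1 : f.comp (rq θ L) = g.comp (rq θ L) := tw_ext h
  apply AlgHom.ext
  intro x
  obtain ⟨y, rfl⟩ := rq_surj θ L x
  exact congrArg (fun k : Tw θ →ₐ[R] B => k y) h1

end

section

variable (p : H →* Multiplicative ℤ) (hp : ∀ c, p (θ c) = 1) (t : H)
  (ht : p t = Multiplicative.ofAdd 1)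

/-- the projections of the lists to the kernel -/
def kerL (i : ι) : List p.ker := (L i).map (kerProj p t ht)

lemma kerL_length (i : ι) : (kerL L p t ht i).length = (L i).length := by
  rw [kerL, List.length_map]

lemma ratN_ker (hL : ∀ i, ∀ h ∈ L i, ∀ h' ∈ L i, p h = p h') :
    (ratN (kerTh θ p hp) (kerL L p t ht)).map p.ker.subtype = ratN θ L := by
  have key : ∀ i, ∀ h ∈ L i, ∀ h' ∈ L i,
      p.ker.subtype (kerProj p t ht h / kerProj p t ht h') = h / h' := by
    intro i h hh h' hh'
    change (kerProj p t ht h : H) / (kerProj p t ht h' : H) = h / h'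
    rw [kerProj_coe, kerProj_coe, hL i h hh h' hh', mul_div_mul_right_eq_div]
  apply le_antisymm
  · rw [ratN, MonoidHom.map_closure]
    refine (Subgroup.closure_le _).mpr ?_
    rintro _ ⟨_, ⟨c, rfl⟩ | ⟨i, h, hh, h', hh', rfl⟩, rfl⟩
    · exact Subgroup.subset_closure (Or.inl ⟨c, rfl⟩)
    · obtain ⟨g, hg, rfl⟩ := List.mem_map.mp hh
      obtain ⟨g', hg', rfl⟩ := List.mem_map.mp hh'
      rw [key i g hg g' hg']
      exact Subgroup.subset_closure (Or.inr ⟨i, g, hg, g', hg', rfl⟩)
  · rw [ratN]
    refine (Subgroup.closure_le _).mpr ?_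
    rintro _ (⟨c, rfl⟩ | ⟨i, h, hh, h', hh', rfl⟩)
    · exact ⟨kerTh θ p hp c, Subgroup.subset_closure (Or.inl ⟨c, rfl⟩), rfl⟩
    · refine ⟨kerProj p t ht h / kerProj p t ht h', Subgroup.subset_closure (Or.inr ⟨i, _,
        List.mem_map_of_mem hh, _, List.mem_map_of_mem hh', rfl⟩), key i h hh h' hh'⟩

/-- The homomorphism to the Laurent polynomials. -/
noncomputable def chiR : H →* LaurentPolynomial (Rl (kerTh θ p hp) (kerL L p t ht)) where
  toFun h := C (rc (kerTh θ p hp) (kerL L p t ht) (kerProj p t ht h)) *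
    T (Multiplicative.toAdd (p h))
  map_one' := by
    rw [map_one, map_one, map_one, map_one, toAdd_one, T_zero, one_mul]
  map_mul' h h' := by
    rw [map_mul, map_mul, map_mul, map_mul, toAdd_mul, T_add]
    ring

lemma chiR_apply (h : H) : chiR θ L p hp t ht h =
    C (rc (kerTh θ p hp) (kerL L p t ht) (kerProj p t ht h)) *
      T (Multiplicative.toAdd (p h)) := rfl

lemma chiR_ker (k : p.ker) : chiR θ L p hp t ht k =
    C (rc (kerTh θ p hp) (kerL L p t ht) k) := by
  rw [chiR_apply, kerProj_ker, MonoidHom.mem_ker.mp k.2, toAdd_one, T_zero, mul_one]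

lemma chiR_t : chiR θ L p hp t ht t = T 1 := by
  rw [chiR_apply, kerProj_t, map_one, map_one, one_mul, ht, toAdd_ofAdd]

lemma chiR_th (c : Rˣ) : chiR θ L p hp t ht (θ c) =
    algebraMap R (LaurentPolynomial (Rl (kerTh θ p hp) (kerL L p t ht))) c := by
  have h := chiR_ker θ L p hp t ht (kerTh θ p hp c)
  rw [kerTh_coe, rc_theta] at h
  rw [h]
  rfl

variable (hL : ∀ i, ∀ h ∈ L i, ∀ h' ∈ L i, p h = p h')

include hL

lemma chiR_sum (i : ι) : ((L i).map (chiR θ L p hp t ht)).sum = 0 := by
  rcases hl : L i with _ | ⟨a, l⟩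
  · rfl
  · rw [← hl]
    have ha : a ∈ L i := by
      rw [hl]
      exact List.mem_cons_self
    have h1 : ∀ s : List H, (∀ h ∈ s, p h = p a) → (s.map (chiR θ L p hp t ht)).sum =
        C (((s.map (kerProj p t ht)).map (rc (kerTh θ p hp) (kerL L p t ht))).sum) *
          T (Multiplicative.toAdd (p a)) := by
      intro s
      induction s with
      | nil =>
        intro _
        rw [List.map_nil, List.map_nil, List.map_nil, List.sum_nil, List.sum_nil, map_zero,
          zero_mul]
      | cons x s ih =>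
        intro hs
        rw [List.map_cons, List.map_cons, List.map_cons, List.sum_cons, List.sum_cons, map_add,
          add_mul, ih fun h hh => hs h (List.mem_cons_of_mem _ hh), chiR_apply,
          hs x List.mem_cons_self]
    rw [h1 (L i) fun h hh => hL i h hh a ha]
    have h2 := rc_sum (kerTh θ p hp) (kerL L p t ht) i
    rw [kerL] at h2
    rw [h2, map_zero, zero_mul]

/-- The forward map. -/
noncomputable def rlF : Rl θ L →ₐ[R] LaurentPolynomial (Rl (kerTh θ p hp) (kerL L p t ht)) :=
  rlLift (B := LaurentPolynomial (Rl (kerTh θ p hp) (kerL L p t ht))) θ L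
    (chiR θ L p hp t ht) (chiR_th θ L p hp t ht) (chiR_sum θ L p hp t ht hL)

lemma rlF_rc (h : H) : rlF θ L p hp t ht hL (rc θ L h) = chiR θ L p hp t ht h :=
  rlLift_rc _ _ _ _ _ _

omit hL in
lemma inc_sum (hL : ∀ i, ∀ h ∈ L i, ∀ h' ∈ L i, p h = p h') (i : ι) :
    ((kerL L p t ht i).map ((rc θ L).comp p.ker.subtype)).sum = 0 := by
  rcases hl : L i with _ | ⟨a, l⟩
  · rw [kerL, hl]
    rfl
  · have ha : a ∈ L i := by
      rw [hl]
      exact List.mem_cons_self
    have h1 : ∀ s : List H, (∀ h ∈ s, p h = p a) →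
        ((s.map (kerProj p t ht)).map ((rc θ L).comp p.ker.subtype)).sum =
        (s.map (rc θ L)).sum * rc θ L (t ^ (-(Multiplicative.toAdd (p a)))) := by
      intro s
      induction s with
      | nil =>
        intro _
        rw [List.map_nil, List.map_nil, List.map_nil, List.sum_nil, zero_mul]
      | cons x s ih =>
        intro hs
        have h2 : ((rc θ L).comp p.ker.subtype) (kerProj p t ht x) =
            rc θ L x * rc θ L (t ^ (-(Multiplicative.toAdd (p a)))) := by
          rw [← map_mul, ← hs x List.mem_cons_self, ← kerProj_coe p t ht x]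
          rfl
        rw [List.map_cons, List.map_cons, List.map_cons, List.sum_cons, List.sum_cons, add_mul,
          ih fun h hh => hs h (List.mem_cons_of_mem _ hh), h2]
    rw [kerL, h1 (L i) fun h hh => hL i h hh a ha, rc_sum, zero_mul]

/-- The inclusion of the algebra of the kernel. -/
noncomputable def rlInc : Rl (kerTh θ p hp) (kerL L p t ht) →ₐ[R] Rl θ L :=
  rlLift (kerTh θ p hp) (kerL L p t ht) ((rc θ L).comp p.ker.subtype)
    (fun c => rc_theta θ L c) (inc_sum θ L p t ht hL)

lemma rlInc_rc (k : p.ker) : rlInc θ L p hp t ht hL (rc (kerTh θ p hp) (kerL L p t ht) k) =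
    rc θ L k := rlLift_rc _ _ _ _ _ _

/-- The inverse map. -/
noncomputable def rlG : LaurentPolynomial (Rl (kerTh θ p hp) (kerL L p t ht)) →ₐ[R] Rl θ L where
  toRingHom := LaurentPolynomial.eval₂ (rlInc θ L p hp t ht hL).toRingHom
    ((rc θ L).toHomUnits t)
  commutes' r := by
    change LaurentPolynomial.eval₂ (rlInc θ L p hp t ht hL).toRingHom ((rc θ L).toHomUnits t)
      (C (algebraMap R _ r)) = _
    rw [LaurentPolynomial.eval₂_C]
    exact (rlInc θ L p hp t ht hL).commutes r

lemma rlG_C (b : Rl (kerTh θ p hp) (kerL L p t ht)) :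
    rlG θ L p hp t ht hL (C b) = rlInc θ L p hp t ht hL b :=
  LaurentPolynomial.eval₂_C _ _ b

lemma rlG_T (n : ℤ) : rlG θ L p hp t ht hL (T n) = rc θ L (t ^ n) := by
  have h : rlG θ L p hp t ht hL (T n) = (((rc θ L).toHomUnits t ^ n : (Rl θ L)ˣ) : Rl θ L) :=
    LaurentPolynomial.eval₂_T _ _ n
  rw [h, ← map_zpow]
  rfl

/-- The algebra is a ring of Laurent polynomials over the one of the kernel. -/
noncomputable def rlE : Rl θ L ≃ₐ[R] LaurentPolynomial (Rl (kerTh θ p hp) (kerL L p t ht)) :=
  AlgEquiv.ofAlgHom (rlF θ L p hp t ht hL) (rlG θ L p hp t ht hL)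
    (by
      have h : ((rlF θ L p hp t ht hL).comp (rlG θ L p hp t ht hL)).toRingHom =
          RingHom.id (LaurentPolynomial (Rl (kerTh θ p hp) (kerL L p t ht))) := by
        refine laurent_hom_ext (B := Rl (kerTh θ p hp) (kerL L p t ht))
          (C := LaurentPolynomial (Rl (kerTh θ p hp) (kerL L p t ht))) _ _ ?_ ?_
        · have h1 : (rlF θ L p hp t ht hL).comp (rlInc θ L p hp t ht hL) =
              (IsScalarTower.toAlgHom R (Rl (kerTh θ p hp) (kerL L p t ht))
                (LaurentPolynomial (Rl (kerTh θ p hp) (kerL L p t ht)))) := by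
            refine rl_ext (B := LaurentPolynomial (Rl (kerTh θ p hp) (kerL L p t ht))) ?_
            intro k
            rw [AlgHom.comp_apply, rlInc_rc, rlF_rc, chiR_ker]
            rfl
          intro b
          change rlF θ L p hp t ht hL (rlG θ L p hp t ht hL (C b)) = C b
          rw [rlG_C]
          exact congrArg (fun f : Rl (kerTh θ p hp) (kerL L p t ht) →ₐ[R]
            LaurentPolynomial (Rl (kerTh θ p hp) (kerL L p t ht)) => f b) h1
        · change rlF θ L p hp t ht hL (rlG θ L p hp t ht hL (T 1)) = T 1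
          rw [rlG_T, zpow_one, rlF_rc, chiR_t]
      apply AlgHom.ext
      intro x
      exact congrArg (fun f : LaurentPolynomial (Rl (kerTh θ p hp) (kerL L p t ht)) →+*
        LaurentPolynomial (Rl (kerTh θ p hp) (kerL L p t ht)) => f x) h)
    (by
      apply rl_ext
      intro h
      rw [AlgHom.comp_apply, rlF_rc, chiR_apply, map_mul, rlG_C, rlInc_rc, rlG_T, ← map_mul,
        kerProj_coe, mul_assoc, ← zpow_add, neg_add_cancel, zpow_zero, mul_one]
      rfl)

end

lemma ft_rl [Algebra.FiniteType R (Tw θ)] : Algebra.FiniteType R (Rl θ L) :=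
  Algebra.FiniteType.of_surjective (rq θ L) (rq_surj θ L)

/-- The twisted group algebra of the kernel is finitely generated. -/
lemma ft_ker (p : H →* Multiplicative ℤ) (hp : ∀ c, p (θ c) = 1) (t : H)
    (ht : p t = Multiplicative.ofAdd 1) (hf : Algebra.FiniteType R (Tw θ)) :
    Algebra.FiniteType R (Tw (kerTh θ p hp)) := by
  let f : Tw θ →ₐ[R] Tw (kerTh θ p hp) := twLift θ ((cls (kerTh θ p hp)).comp (kerProj p t ht))
    (by
      intro c
      rw [MonoidHom.comp_apply, ← kerTh_coe θ p hp, kerProj_ker, cls_theta])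
  refine Algebra.FiniteType.of_surjective f ?_
  rw [← AlgHom.range_eq_top, eq_top_iff]
  rintro x -
  have hx : x ∈ Submodule.span R (Set.range (cls (kerTh θ p hp))) := by
    rw [tw_span]
    exact Submodule.mem_top
  have h1 : Submodule.span R (Set.range (cls (kerTh θ p hp))) ≤ Subalgebra.toSubmodule f.range := by
    rw [Submodule.span_le]
    rintro _ ⟨k, rfl⟩
    refine ⟨cls θ k, ?_⟩
    change twLift θ _ _ (cls θ k) = _
    rw [twLift_cls, MonoidHom.comp_apply, kerProj_ker]
  exact h1 hx

variable {sep : Prop} {P : Sch R → Prop}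

lemma rel_rank [IsNoetherianRing R] (hP : Pos sep P) [Fintype ι] (d : WithBot ℕ∞)
    (hd : ∀ (A : Type) [CommRing A] [Algebra R A] [Algebra.FiniteType R A],
      ringKrullDim A ≤ d → P (aff R A)) (n : ℕ) :
    ∀ (H : Type) [CommGroup H] (θ : Rˣ →* H) (L : ι → List H), Algebra.FiniteType R (Tw θ) →
    ringKrullDim R + (∑ i, ((L i).length - 2) : ℕ) ≤ d →
    ∀ (π : H →* (Fin n → Multiplicative ℤ)), Function.Surjective π →
    (∀ x ∈ ratN θ L, π x = 1) →
    (∃ F : Finset H, ∀ x, π x = 1 → ∃ m ∈ ratN θ L, ∃ f ∈ F, x = m * f) →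
    P (aff R (Rl θ L)) := by
  classical
  induction n with
  | zero =>
    rintro H _ θ L hft hdim π - - ⟨F, hF⟩
    have := ft_rl θ L
    refine hd _ ((rel_dim θ L ⟨F, fun x => hF x (Subsingleton.elim _ _)⟩).trans hdim)
  | succ n ih =>
    rintro H _ θ L hft hdim π hs hN ⟨F, hF⟩
    let p : H →* Multiplicative ℤ := (Pi.evalMonoidHom (fun _ : Fin (n + 1) => Multiplicative ℤ)
      (Fin.last n)).comp π
    have hpN : ∀ x ∈ ratN θ L, p x = 1 := by
      intro x hx
      change π x (Fin.last n) = 1
      rw [hN x hx]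
      rfl
    have hp : ∀ c, p (θ c) = 1 := fun c => hpN _ (Subgroup.subset_closure (Or.inl ⟨c, rfl⟩))
    have hL : ∀ i, ∀ h ∈ L i, ∀ h' ∈ L i, p h = p h' := by
      intro i h hh h' hh'
      have h1 := hpN (h / h') (Subgroup.subset_closure (Or.inr ⟨i, h, hh, h', hh', rfl⟩))
      rw [map_div] at h1
      exact div_eq_one.mp h1
    obtain ⟨t, ht⟩ := hs fun _ => Multiplicative.ofAdd 1
    have ht' : p t = Multiplicative.ofAdd 1 := by
      change π t (Fin.last n) = _
      rw [ht]
    let π' : p.ker →* (Fin n → Multiplicative ℤ) :=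
      { toFun := fun k i => π k (Fin.castSucc i)
        map_one' := by
          funext i
          simp
        map_mul' := fun a b => by
          funext i
          simp }
    have hs' : Function.Surjective π' := by
      intro f
      obtain ⟨h, hh⟩ := hs (Fin.snoc f 1)
      have h1 : h ∈ p.ker := by
        rw [MonoidHom.mem_ker]
        change π h (Fin.last n) = 1
        rw [hh, Fin.snoc_last]
      refine ⟨⟨h, h1⟩, ?_⟩
      funext i
      change π h (Fin.castSucc i) = f i
      rw [hh, Fin.snoc_castSucc]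
    have hmap := ratN_ker θ L p hp t ht' hL
    have hft' := ft_ker θ p hp t ht' hft
    have h2 := ih p.ker (kerTh θ p hp) (kerL L p t ht') hft' (by
      refine le_trans (le_of_eq ?_) hdim
      simp only [kerL_length]) π' hs' (by
      intro x hx
      have h3 : (x : H) ∈ ratN θ L := by
        rw [← hmap]
        exact ⟨x, hx, rfl⟩
      funext i
      change π x (Fin.castSucc i) = 1
      rw [hN _ h3]
      rfl) (by
      refine ⟨F.subtype (· ∈ p.ker), ?_⟩
      intro x hx
      have hx' : π x = 1 := by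
        funext i
        refine Fin.lastCases ?_ (fun i => ?_) i
        · exact MonoidHom.mem_ker.mp x.2
        · exact congrFun hx i
      obtain ⟨m, hm, f, hf, hxf⟩ := hF x hx'
      rw [← hmap] at hm
      obtain ⟨m', hm', rfl⟩ := hm
      have hfk : f ∈ p.ker := by
        rw [MonoidHom.mem_ker]
        have h3 : p x = 1 := MonoidHom.mem_ker.mp x.2
        have h4 : p (p.ker.subtype m') = 1 := MonoidHom.mem_ker.mp m'.2
        rw [hxf, map_mul, h4, one_mul] at h3
        exact h3
      refine ⟨m', hm', ⟨f, hfk⟩, ?_, ?_⟩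
      · rw [Finset.mem_subtype]
        exact hf
      · exact Subtype.ext hxf)
    have hR := ft_rl (kerTh θ p hp) (kerL L p t ht')
    have h3 : Algebra.FiniteType R
      (LaurentPolynomial (Rl (kerTh θ p hp) (kerL L p t ht'))) := ft_laurent _
    exact pos_alg hP (rlE θ L p hp t ht' hL).symm (hP.times _ h2)

/-- Twisted group algebras of finitely generated groups modulo sums of group elements. -/
theorem rel_P [IsNoetherianRing R] (hP : Pos sep P) [Fintype ι] (d : WithBot ℕ∞)
    (hd : ∀ (A : Type) [CommRing A] [Algebra R A] [Algebra.FiniteType R A],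
      ringKrullDim A ≤ d → P (aff R A))
    (hdim : ringKrullDim R + (∑ i, ((L i).length - 2) : ℕ) ≤ d)
    (hf : Group.FG (H ⧸ θ.range)) : Algebra.FiniteType R (Rl θ L) ∧ P (aff R (Rl θ L)) := by
  classical
  have hft : Algebra.FiniteType R (Tw θ) := (tw_fg hP θ hf).1
  refine ⟨ft_rl θ L, ?_⟩
  have hle : θ.range ≤ ratN θ L := by
    rintro _ ⟨c, rfl⟩
    exact Subgroup.subset_closure (Or.inl ⟨c, rfl⟩)
  have hf' : Group.FG (H ⧸ ratN θ L) := by
    have h1 : Function.Surjective
        (QuotientGroup.map θ.range (ratN θ L) (MonoidHom.id H) hle) := by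
      intro y
      obtain ⟨x, rfl⟩ := QuotientGroup.mk_surjective y
      exact ⟨QuotientGroup.mk x, rfl⟩
    exact Group.fg_of_surjective h1
  obtain ⟨ζ, j, _, _, q, hq, e, ⟨E⟩⟩ :=
    CommGroup.equiv_free_prod_prod_multiplicative_zmod (H ⧸ ratN θ L)
  have hfin : Finite ((i : ζ) → Multiplicative (ZMod (q i ^ e i))) := by
    have : ∀ i, NeZero (q i ^ e i) := fun i => ⟨pow_ne_zero _ (hq i).ne_zero⟩
    have : ∀ i, Finite (Multiplicative (ZMod (q i ^ e i))) := fun i =>
      inferInstanceAs (Finite (ZMod (q i ^ e i)))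
    exact Pi.finite
  have := Fintype.ofFinite ((i : ζ) → Multiplicative (ZMod (q i ^ e i)))
  let ε := Fintype.equivFin j
  let π : H →* (Fin (Fintype.card j) → Multiplicative ℤ) :=
    { toFun := fun x i => (E (QuotientGroup.mk x)).1 (ε.symm i)
      map_one' := by
        funext i
        simp
      map_mul' := fun a b => by
        funext i
        simp }
  have hsurj : ∀ y, ∃ x : H, E (QuotientGroup.mk x) = y := by
    intro y
    obtain ⟨x, hx⟩ := QuotientGroup.mk_surjective (E.symm y)
    exact ⟨x, by rw [hx, E.apply_symm_apply]⟩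
  refine rel_rank hP d hd _ H θ L hft hdim π ?_ ?_ ?_
  · intro f
    obtain ⟨x, hx⟩ := hsurj (fun i => f (ε i), 1)
    refine ⟨x, ?_⟩
    funext i
    change (E (QuotientGroup.mk x)).1 (ε.symm i) = f i
    rw [hx]
    change f (ε (ε.symm i)) = f i
    rw [Equiv.apply_symm_apply]
  · intro x hx
    have h : (QuotientGroup.mk x : H ⧸ ratN θ L) = 1 := (QuotientGroup.eq_one_iff _).mpr hx
    funext i
    change (E (QuotientGroup.mk x)).1 (ε.symm i) = 1
    rw [h, map_one]
    rfl
  · choose g hg using hsurj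
    refine ⟨Finset.univ.image fun m => g (1, m), ?_⟩
    intro x hx
    have h1 : E (QuotientGroup.mk x) = (1, (E (QuotientGroup.mk x)).2) := by
      apply Prod.ext
      · funext i
        have := congrFun hx (ε i)
        change (E (QuotientGroup.mk x)).1 (ε.symm (ε i)) = 1 at this
        rw [Equiv.symm_apply_apply] at this
        exact this
      · rfl
    have h2 : (QuotientGroup.mk (g (1, (E (QuotientGroup.mk x)).2)) : H ⧸ ratN θ L) =
        QuotientGroup.mk x := by
      apply E.injective
      rw [hg, ← h1]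
    refine ⟨_, QuotientGroup.eq.mp h2, _,
      Finset.mem_image.mpr ⟨(E (QuotientGroup.mk x)).2, Finset.mem_univ _, rfl⟩, ?_⟩
    rw [mul_comm, mul_inv_cancel_left]

end Pool.Agent.U483.CX
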